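import Pool.Agent.Helper32.HL.Transfer

/-!
# Boxes for all regular trees from the full binary tree, no measure on the levels
-/

set_option autoImplicit false

open Cardinal Set Helper2.HB Pool.Agent.Helper58.HL

namespace Helper32.HL

variable {κ : Cardinal.{0}}

theorem exists_longer (hκ : κ.IsRegular) (p : Bin κ.ord.ToType) (l : κ.ord.ToType) :
    ∃ q, p ≤ q ∧ l < (q : Node κ.ord.ToType).len := by
  classical
  haveI : NoMaxOrder κ.ord.ToType := Cardinal.noMaxOrder hκ.aleph0_le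
  obtain ⟨l', hl'⟩ := exists_gt (max l (p : Node κ.ord.ToType).len)
  let s : Node κ.ord.ToType :=
    { len := l'
      val := (p : Node κ.ord.ToType).val
      supp := fun η hη ξ => (p : Node κ.ord.ToType).supp η
        ((le_max_right _ _).trans (hl'.le.trans hη)) ξ }
  refine ⟨⟨s, fun η => p.2 η⟩, ⟨(le_max_right _ _).trans hl'.le, fun _ _ => rfl⟩, ?_⟩
  exact (le_max_left _ _).trans_lt hl'

/-- generic compactness makes `κ` a strong limit cardinal -/
theorem two_pow_lt_of_compact (hκ : κ.IsRegular) (hE : GenCompact κ (Bin κ.ord.ToType))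
    (l : κ.ord.ToType) : #(Iio l → Bool) < κ := by
  classical
  by_contra hcon
  rw [not_lt] at hcon
  have h0 : #κ.ord.ToType ≤ #(Iio l → Bool) := by rwa [Cardinal.mk_ord_toType]
  obtain ⟨f⟩ := h0
  have hl : #(Iio l) < κ := Cardinal.mk_Iio_toType_ord_lt l
  obtain ⟨E, hF, hd⟩ := hE.exists_of_le (I := Iio l) hl.le
    (fun b => {s | f (s : Node κ.ord.ToType).len b = true})
  have hne : Nonempty κ.ord.ToType := ⟨l⟩
  obtain ⟨o, _, ho'⟩ := (wellFounded_lt (α := κ.ord.ToType)).has_min univ univ_nonempty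
  have ho : ∀ x, o ≤ x := fun x => not_lt.1 (ho' x (mem_univ _))
  let p₀ : Bin κ.ord.ToType :=
    ⟨{ len := o, val := fun _ => o, supp := fun _ _ ξ => ho ξ },
      fun _ x hx _ _ => absurd (ho x) (not_le.2 hx)⟩
  obtain ⟨p, -, hp⟩ := (closed_bin hκ).meet hκ.aleph0_le hl
    (fun (b : Iio l) p => {s : Bin κ.ord.ToType | f (s : Node κ.ord.ToType).len b = true} ∈ E p ∨
      {s : Bin κ.ord.ToType | f (s : Node κ.ord.ToType).len b = true}ᶜ ∈ E p)
    (fun b a a' h h' => h'.imp (fun h' => hF.mono a a' h h') (fun h' => hF.mono a a' h h'))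
    p₀ (fun b a _ => hd b a)
  have hv : ∀ b : Iio l, ∃ i : Bool,
      {s : Bin κ.ord.ToType | f (s : Node κ.ord.ToType).len b = i} ∈ E p := by
    intro b
    rcases hp b with h | h
    · exact ⟨true, h⟩
    · refine ⟨false, Filter.mem_of_superset h ?_⟩
      intro s hs
      simpa using hs
  choose v hv using hv
  have := hF.complete p
  have h1 : (⋂ b : Iio l, {s : Bin κ.ord.ToType | f (s : Node κ.ord.ToType).len b = v b}) ∈
      E p := (Filter.cardinal_iInter_mem hl).2 hv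
  have := hF.ne p
  obtain ⟨s, hs⟩ := Filter.nonempty_of_mem h1
  obtain ⟨p', hpp', hlt⟩ := exists_longer hκ p (s : Node κ.ord.ToType).len
  have := hF.ne p'
  obtain ⟨s', hs', hs''⟩ := Filter.nonempty_of_mem
    (Filter.inter_mem (hF.mono _ _ hpp' h1) (hF.cone_mem p'))
  have h2 : f (s : Node κ.ord.ToType).len = f (s' : Node κ.ord.ToType).len := by
    funext b
    have e1 : f (s : Node κ.ord.ToType).len b = v b := mem_iInter.1 hs b
    have e2 : f (s' : Node κ.ord.ToType).len b = v b := mem_iInter.1 hs' b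
    rw [e1, e2]
  have h3 : (p' : Node κ.ord.ToType).len ≤ (s' : Node κ.ord.ToType).len := hs''.1
  exact absurd (f.injective h2) (hlt.trans_le h3).ne

/-- the full binary tree has `κ` nodes -/
theorem card_bin_of_compact (hκ : κ.IsRegular) (hE : GenCompact κ (Bin κ.ord.ToType)) :
    #(Bin κ.ord.ToType) ≤ κ := by
  classical
  have h1 : #(Bin κ.ord.ToType) ≤ #(Σ l : κ.ord.ToType, (Iio l → Bool)) := by
    refine Cardinal.mk_le_of_injective (f := fun t : Bin κ.ord.ToType =>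
      (⟨(t : Node κ.ord.ToType).len,
        fun η => decide (IsMin ((t : Node κ.ord.ToType).val η))⟩ :
          Σ l : κ.ord.ToType, (Iio l → Bool))) ?_
    rintro ⟨⟨l, v, hv⟩, ht⟩ ⟨⟨l', v', hv'⟩, ht'⟩ h
    simp only [Sigma.mk.injEq] at h
    obtain ⟨h1, h2⟩ := h
    subst h1
    rw [heq_eq_eq] at h2
    apply Subtype.ext
    refine Node.eq_of rfl fun η hη => ?_
    have h3 := congrFun h2 ⟨η, hη⟩
    simp only [decide_eq_decide] at h3
    have h4 : (Iio (v η)).Subsingleton := ht η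
    have h5 : (Iio (v' η)).Subsingleton := ht' η
    show v η = v' η
    by_cases hm : IsMin (v η)
    · have hm' := h3.1 hm
      rcases le_total (v η) (v' η) with h | h
      · exact le_antisymm h (hm' h)
      · exact le_antisymm (hm h) h
    · have hm' : ¬ IsMin (v' η) := fun h => hm (h3.2 h)
      rcases lt_trichotomy (v η) (v' η) with h | h | h
      · rw [not_isMin_iff] at hm
        obtain ⟨w, hw⟩ := hm
        exact absurd (h5 (show w ∈ Iio (v' η) from hw.trans h) h) hw.ne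
      · exact h
      · rw [not_isMin_iff] at hm'
        obtain ⟨w, hw⟩ := hm'
        exact absurd (h4 (show w ∈ Iio (v η) from hw.trans h) h) hw.ne
  refine h1.trans ?_
  rw [Cardinal.mk_sigma]
  refine (Cardinal.sum_le_sum _ (fun _ => κ)
    (fun l => (two_pow_lt_of_compact hκ hE l).le)).trans ?_
  rw [Cardinal.sum_const]
  simp only [Cardinal.lift_id, Cardinal.mk_ord_toType]
  exact (Cardinal.mul_eq_self hκ.aleph0_le).le

/-- **Boxes** in two regular trees, from filters on the full binary tree that decide `κ` sets. -/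
theorem exists_boxes_bin (hκ : κ.IsRegular) {T₀ T₁ : Set (Node κ.ord.ToType)}
    (h₀ : IsRegularTree T₀) (h₁ : IsRegularTree T₁)
    (hE : GenCompact κ (Bin κ.ord.ToType)) {ι : Type} (hι : #ι < κ) (c : T₀ → T₁ → ι)
    (a₀ : T₀) (a₁ : T₁) :
    ∃ s, a₀ ≤ s ∧ ∃ t, a₁ ≤ t ∧ ∃ i : ι, ∀ (M J : Type), #M < κ → #J < κ →
      ∀ (p : M → T₀) (q : J → T₁), (∀ m, s ≤ p m) → (∀ j, t ≤ q j) →
        ∃ (x : M → T₀) (y : J → T₁), (∀ m, p m ≤ x m) ∧ (∀ j, q j ≤ y j) ∧
          ∀ m j, c (x m) (y j) = i := by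
  classical
  obtain ⟨π₀, hm₀, hp₀, hs₀⟩ := exists_proj hκ h₀
  obtain ⟨π₁, hm₁, hp₁, hs₁⟩ := exists_proj hκ h₁
  obtain ⟨a₀', ha₀'⟩ := hs₀ a₀
  obtain ⟨a₁', ha₁'⟩ := hs₁ a₁
  have : Nonempty (Bin κ.ord.ToType) := ⟨a₀'⟩
  have hT₀ : #T₀ = κ := by rw [h₀.card, Cardinal.mk_ord_toType]
  have hB : #(Bin κ.ord.ToType) ≤ κ := card_bin_of_compact hκ hE
  have hmul : ∀ {A B : Type}, #A ≤ κ → #B ≤ κ → #(A × B) ≤ κ := by
    intro A B hA hB
    rw [Cardinal.mk_prod]
    simp only [Cardinal.lift_id]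
    exact (mul_le_mul' hA hB).trans (Cardinal.mul_eq_self hκ.aleph0_le).le
  obtain ⟨E₁, hF₁, hd₁⟩ := hE.exists_of_le (I := T₀ × ι) (hmul hT₀.le hι.le)
    (fun z => π₁ ⁻¹' {y | c z.1 y = z.2})
  obtain ⟨E₀, hF₀, hd₀⟩ := hE.exists_of_le (I := ι × Bin κ.ord.ToType) (hmul hι.le hB)
    (fun z => π₀ ⁻¹' possible (fun p => Filter.map π₁ (E₁ p)) c z.1 z.2)
  obtain ⟨s, hs, t, ht, i, hi⟩ := exists_boxes_of_decides hκ.aleph0_le (closed_bin hκ)
    (closed_bin hκ) (cone₀ := fun p => Ici (π₀ p)) (cone₁ := fun p => Ici (π₁ p))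
    (fun p p' h => Ici_subset_Ici.2 (hm₀ h)) (fun p p' h => Ici_subset_Ici.2 (hm₁ h))
    (map_genFil hF₀ hm₀) (map_genFil hF₁ hm₁) hι c
    (fun x i => map_decides (hd₁ (x, i))) (fun i t => map_decides (hd₀ (i, t))) a₀' a₁'
  refine ⟨π₀ s, ha₀'.trans (hm₀ hs), π₁ t, ha₁'.trans (hm₁ ht), i,
    fun M J hM hJ p q hp hq => ?_⟩
  choose p' hp1 hp2 using fun m => hp₀ s (p m) (hp m)
  choose q' hq1 hq2 using fun j => hp₁ t (q j) (hq j)
  obtain ⟨x, y, hx, hy, hxy⟩ := hi M J hM hJ p' q' hp1 hq1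
  exact ⟨x, y, fun m => (hp2 m).trans (hx m), fun j => (hq2 j).trans (hy j), hxy⟩

end Helper32.HL
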