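import Pool.Agent.Helper58.HL.Compact

/-!
# Projections of the full binary tree `2^{<κ}` onto regular trees
-/

set_option autoImplicit false

open Cardinal Set Helper2.HB Pool.Agent.Helper58.HL

namespace Helper32.HL

/-- The full binary tree: all functions from some `ζ` whose values have at most one predecessor,
that is, whose values are the two least elements. -/
def Bin (K : Type) [LinearOrder K] : Set (Node K) :=
  {t | ∀ η, (Iio (t.val η)).Subsingleton}

section abs

variable {K : Type} [LinearOrder K] [WellFoundedLT K] {T : Type} [PartialOrder T]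

open Classical in
/-- go from `t` to `u` if the bit is set and `u` is above `t` -/
noncomputable def jump (bit : Prop) (t u : T) : T := if bit ∧ t ≤ u then u else t

theorem le_jump (bit : Prop) (t u : T) : t ≤ jump bit t u := by
  unfold jump
  split_ifs with h
  · exact h.2
  · exact le_rfl

open Classical in
noncomputable def lubOf (t : T) (D : Set T) : T := if h : ∃ x, IsLUB D x then h.choose else t

theorem lubOf_spec {t : T} {D : Set T} (h : ∃ x, IsLUB D x) : IsLUB D (lubOf t D) := by
  unfold lubOf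
  rw [dif_pos h]
  exact h.choose_spec

/-- the node reached at the stage `a` -/
noncomputable def rho (t : T) (e : K → T) (r : K → K) : K → T :=
  (wellFounded_lt (α := K)).fix (fun a g => lubOf t
    {x | ∃ b, ∃ h : b < a, x = jump (¬ IsMin (r b)) (g b h) (e b)})

variable (t : T) (e : K → T) (r : K → K)

theorem rho_eq (a : K) : rho t e r a = lubOf t
    {x | ∃ b, ∃ _ : b < a, x = jump (¬ IsMin (r b)) (rho t e r b) (e b)} :=
  WellFounded.fix_eq _ _ _

theorem rho_congr {r r' : K → K} (a : K) (h : ∀ b < a, r b = r' b) :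
    rho t e r a = rho t e r' a := by
  induction a using WellFoundedLT.induction with
  | ind a ih =>
    rw [rho_eq, rho_eq]
    congr 1
    ext x
    constructor
    · rintro ⟨b, hb, rfl⟩
      exact ⟨b, hb, by rw [ih b hb (fun b' hb' => h b' (hb'.trans hb)), h b hb]⟩
    · rintro ⟨b, hb, rfl⟩
      exact ⟨b, hb, by rw [ih b hb (fun b' hb' => h b' (hb'.trans hb)), h b hb]⟩

variable (hlub : ∀ (a : K) (D : Set T), IsChain (· ≤ ·) D → #D ≤ #(Iio a) → ∃ x, IsLUB D x)

include hlub

theorem rho_spec (a : K) :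
    IsLUB {x | ∃ b, ∃ _ : b < a, x = jump (¬ IsMin (r b)) (rho t e r b) (e b)}
      (rho t e r a) := by
  induction a using WellFoundedLT.induction with
  | ind a ih =>
    rw [rho_eq]
    refine lubOf_spec (hlub a _ ?_ ?_)
    · rintro _ ⟨b, hb, rfl⟩ _ ⟨b', hb', rfl⟩ hne
      rcases lt_trichotomy b b' with h | h | h
      · exact Or.inl (((ih b' hb').1 ⟨b, h, rfl⟩).trans (le_jump _ _ _))
      · exact absurd (by rw [h]) hne
      · exact Or.inr (((ih b hb).1 ⟨b', h, rfl⟩).trans (le_jump _ _ _))
    · refine (Cardinal.mk_le_mk_of_subset (t := range fun b : Iio a =>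
        jump (¬ IsMin (r b)) (rho t e r b) (e b)) ?_).trans Cardinal.mk_range_le
      rintro _ ⟨b, hb, rfl⟩
      exact ⟨⟨b, hb⟩, rfl⟩

theorem jump_le_rho {a b : K} (hb : b < a) :
    jump (¬ IsMin (r b)) (rho t e r b) (e b) ≤ rho t e r a :=
  (rho_spec t e r hlub a).1 ⟨b, hb, rfl⟩

theorem rho_mono {a b : K} (hb : b ≤ a) : rho t e r b ≤ rho t e r a := by
  rcases hb.eq_or_lt with h | h
  · rw [h]
  · exact (le_jump _ _ _).trans (jump_le_rho t e r hlub h)

/-- zeros do not move the node -/
theorem rho_const {a b : K} (hab : a ≤ b) (h : ∀ c, a ≤ c → c < b → IsMin (r c)) :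
    rho t e r b ≤ rho t e r a := by
  induction b using WellFoundedLT.induction with
  | ind b ih =>
    apply (rho_spec t e r hlub b).2
    rintro _ ⟨c, hc, rfl⟩
    rcases lt_or_ge c a with h' | h'
    · exact jump_le_rho t e r hlub h'
    · have h1 := ih c hc h' (fun d hd hd' => h d hd (hd'.trans hc))
      have h2 : jump (¬ IsMin (r c)) (rho t e r c) (e c) = rho t e r c := by
        unfold jump
        rw [if_neg]
        exact fun h3 => h3.1 (h c h' hc)
      rw [h2]
      exact h1

end abs

section tree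

variable {κ : Cardinal.{0}}

theorem exists_isLUB (hκ : κ.IsRegular) {T : Set (Node κ.ord.ToType)} (hT : IsRegularTree T)
    (D : Set T) (hch : IsChain (· ≤ ·) D) (hcard : #D < κ) : ∃ x : T, IsLUB D x := by
  obtain ⟨l0, hl0⟩ := exists_bound hκ hcard (fun z : D => (z.1 : Node κ.ord.ToType).len)
  obtain ⟨l, hl, hmin⟩ := (wellFounded_lt (α := κ.ord.ToType)).has_min
    {l | ∀ d ∈ D, (d : Node κ.ord.ToType).len ≤ l} ⟨l0, fun d hd => hl0 ⟨d, hd⟩⟩
  obtain ⟨r, hr, hrl, h⟩ := hT.ub hK_toType (D := Subtype.val '' D) (by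
      rintro _ ⟨x, -, rfl⟩; exact x.2) (by
      rintro _ ⟨x, hx, rfl⟩ _ ⟨y, hy, rfl⟩ hxy
      exact hch hx hy (fun h => hxy (by rw [h]))) l (by
      rintro _ ⟨x, hx, rfl⟩; exact hl x hx)
  refine ⟨⟨r, hr⟩, fun x hx => h _ ⟨x, hx, rfl⟩, fun u hu => ?_⟩
  refine ⟨?_, fun η hη => ?_⟩
  · have h1 : l ≤ (u : Node κ.ord.ToType).len := by
      by_contra hcon
      exact hmin _ (fun d hd => (hu hd).1) (not_le.1 hcon)
    exact hrl.le.trans h1
  · have hη' : η < l := hrl ▸ hη
    have h2 : ∃ d ∈ D, η < (d : Node κ.ord.ToType).len := by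
      by_contra hcon
      push Not at hcon
      exact hmin η hcon hη'
    obtain ⟨d, hd, hdη⟩ := h2
    have h3 := (h _ ⟨d, hd, rfl⟩).2 η hdη
    have h4 := (hu hd).2 η hdη
    exact h3.symm.trans h4

theorem exists_enum {T : Type} [Nonempty T] (hκ : ℵ₀ ≤ κ) (hT : #T = κ) :
    ∃ e : κ.ord.ToType → T, ∀ t a, ∃ b, a ≤ b ∧ e b = t := by
  have h1 : #κ.ord.ToType = #(T × κ.ord.ToType) := by
    rw [Cardinal.mk_prod]
    simp only [Cardinal.lift_id, Cardinal.mk_ord_toType]
    rw [hT, Cardinal.mul_eq_self hκ]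
  obtain ⟨φ⟩ := Cardinal.eq.1 h1
  refine ⟨fun b => (φ b).1, fun t a => ?_⟩
  by_contra hcon
  push Not at hcon
  have h2 : #κ.ord.ToType ≤ #(Iio a) := by
    refine Cardinal.mk_le_of_injective (f := fun x => (⟨φ.symm (t, x), ?_⟩ : Iio a)) ?_
    · by_contra h3
      exact hcon (φ.symm (t, x)) (not_lt.1 h3) (by simp)
    · intro x y hxy
      have := congrArg Subtype.val hxy
      simpa using this
  exact absurd h2 (not_le.2 (hK_toType a))

/-- A projection of the full binary tree onto a regular tree. -/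
theorem exists_proj (hκ : κ.IsRegular) {T : Set (Node κ.ord.ToType)} (hT : IsRegularTree T) :
    ∃ π : Bin κ.ord.ToType → T, Monotone π ∧ (∀ p t, π p ≤ t → ∃ p', p ≤ p' ∧ t ≤ π p') ∧
      ∀ t, ∃ p, t ≤ π p := by
  haveI : NoMaxOrder κ.ord.ToType := Cardinal.noMaxOrder hκ.aleph0_le
  have hTc : #T = κ := by rw [hT.card, Cardinal.mk_ord_toType]
  have hne : Nonempty T := by
    rw [← Cardinal.mk_ne_zero_iff, hTc]
    exact (lt_of_lt_of_le Cardinal.aleph0_pos hκ.aleph0_le).ne'
  obtain ⟨e, he⟩ := exists_enum hκ.aleph0_le hTc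
  obtain ⟨t₀⟩ := hne
  have hlub : ∀ (a : κ.ord.ToType) (D : Set T), IsChain (· ≤ ·) D → #D ≤ #(Iio a) →
      ∃ x, IsLUB D x := fun a D hD hc => exists_isLUB hκ hT D hD
        (hc.trans_lt (Cardinal.mk_Iio_toType_ord_lt a))
  have hKne : Nonempty κ.ord.ToType := ⟨(t₀ : Node κ.ord.ToType).len⟩
  obtain ⟨o, _, ho'⟩ := (wellFounded_lt (α := κ.ord.ToType)).has_min univ univ_nonempty
  have ho : ∀ x, o ≤ x := fun x => not_lt.1 (ho' x (mem_univ _))
  have homin : IsMin o := fun x _ => ho x
  obtain ⟨u, hu, hu'⟩ := (wellFounded_lt (α := κ.ord.ToType)).has_min (Ioi o) (exists_gt o)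
  have hunot : ¬ IsMin u := fun h => absurd (h (le_of_lt hu)) (not_le.2 hu)
  have hos : (Iio o).Subsingleton := fun x hx _ _ => absurd (ho x) (not_le.2 hx)
  have hus : (Iio u).Subsingleton := by
    have h1 : ∀ x ∈ Iio u, x = o := fun x hx =>
      le_antisymm (not_lt.1 fun h => hu' x h hx) (ho x)
    intro x hx y hy
    rw [h1 x hx, h1 y hy]
  refine ⟨fun s => rho t₀ e (s : Node κ.ord.ToType).val (s : Node κ.ord.ToType).len, ?_, ?_, ?_⟩
  · intro s s' hs
    have h1 : rho t₀ e (s : Node κ.ord.ToType).val (s : Node κ.ord.ToType).len =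
        rho t₀ e (s' : Node κ.ord.ToType).val (s : Node κ.ord.ToType).len :=
      rho_congr t₀ e _ (fun b hb => hs.2 b hb)
    beta_reduce
    rw [h1]
    exact rho_mono t₀ e _ hlub hs.1
  · intro p t hpt
    beta_reduce at hpt
    obtain ⟨b, hb, heb⟩ := he t (p : Node κ.ord.ToType).len
    obtain ⟨b', hb'⟩ := exists_gt b
    classical
    let v : κ.ord.ToType → κ.ord.ToType := fun η =>
      if η < (p : Node κ.ord.ToType).len then (p : Node κ.ord.ToType).val η
      else if η = b then u else o
    let s : Node κ.ord.ToType :=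
      { len := b'
        val := v
        supp := by
          intro η hη ξ
          have h1 : ¬ η < (p : Node κ.ord.ToType).len :=
            not_lt.2 (hb.trans (hb'.le.trans hη))
          have h2 : ¬ η = b := (hb'.trans_le hη).ne'
          simp only [v]
          rw [if_neg h1, if_neg h2]
          exact ho ξ }
    have hs : s ∈ Bin κ.ord.ToType := by
      intro η
      show (Iio (v η)).Subsingleton
      simp only [v]
      split_ifs
      · exact p.2 η
      · exact hus
      · exact hos
    have hps : (p : Node κ.ord.ToType) ≤ s := by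
      refine ⟨hb.trans hb'.le, fun η hη => ?_⟩
      show _ = v η
      simp only [v]
      rw [if_pos hη]
    refine ⟨⟨s, hs⟩, hps, ?_⟩
    have h1 : rho t₀ e v (p : Node κ.ord.ToType).len ≤ t := by
      rw [← rho_congr t₀ e (p : Node κ.ord.ToType).len (fun b hb => hps.2 b hb)]
      exact hpt
    have h2 : rho t₀ e v b ≤ t := by
      refine le_trans (rho_const t₀ e v hlub hb fun c hc hcb => ?_) h1
      simp only [v]
      rw [if_neg (not_lt.2 hc), if_neg hcb.ne]
      exact homin
    have h3 := jump_le_rho t₀ e v hlub hb'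
    have h4 : jump (¬ IsMin (v b)) (rho t₀ e v b) (e b) = t := by
      unfold jump
      rw [if_pos, heb]
      refine ⟨?_, by rw [heb]; exact h2⟩
      have hv : v b = u := by simp [v, not_lt.2 hb]
      rw [hv]
      exact hunot
    rw [h4] at h3
    exact h3
  · intro t
    obtain ⟨b, hb, heb⟩ := he t o
    obtain ⟨b', hb'⟩ := exists_gt b
    classical
    let v : κ.ord.ToType → κ.ord.ToType := fun η => if η = b then u else o
    let s : Node κ.ord.ToType :=
      { len := b'
        val := v
        supp := by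
          intro η hη ξ
          have h2 : ¬ η = b := (hb'.trans_le hη).ne'
          simp only [v]
          rw [if_neg h2]
          exact ho ξ }
    have hs : s ∈ Bin κ.ord.ToType := by
      intro η
      show (Iio (v η)).Subsingleton
      simp only [v]
      split_ifs
      · exact hus
      · exact hos
    refine ⟨⟨s, hs⟩, ?_⟩
    have h0 : rho t₀ e v o ≤ t := by
      apply (rho_spec t₀ e v hlub o).2
      rintro _ ⟨c, hc, rfl⟩
      exact absurd (ho c) (not_le.2 hc)
    have h2 : rho t₀ e v b ≤ t := by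
      refine le_trans (rho_const t₀ e v hlub hb fun c hc hcb => ?_) h0
      simp only [v]
      rw [if_neg hcb.ne]
      exact homin
    have h3 := jump_le_rho t₀ e v hlub hb'
    have h4 : jump (¬ IsMin (v b)) (rho t₀ e v b) (e b) = t := by
      unfold jump
      rw [if_pos, heb]
      refine ⟨?_, by rw [heb]; exact h2⟩
      have hv : v b = u := by simp [v]
      rw [hv]
      exact hunot
    rw [h4] at h3
    exact h3

end tree

end Helper32.HL
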