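import Pool.Agent.Helper32.HL.Proj

/-!
# Boxes for all regular trees from the full binary tree
-/

set_option autoImplicit false

open Cardinal Set Helper2.HB Pool.Agent.Helper58.HL

namespace Helper32.HL

variable {κ : Cardinal.{0}}

theorem closed_bin (hκ : κ.IsRegular) : Closed κ (Bin κ.ord.ToType) := by
  classical
  intro C hne hch hcard
  obtain ⟨l, hl⟩ := exists_bound hκ hcard (fun z : C => (z.1 : Node κ.ord.ToType).len)
  obtain ⟨c₀, hc₀⟩ := hne
  obtain ⟨o, _, ho'⟩ := (wellFounded_lt (α := κ.ord.ToType)).has_min univ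
    ⟨(c₀ : Node κ.ord.ToType).len, mem_univ _⟩
  have ho : ∀ x, o ≤ x := fun x => not_lt.1 (ho' x (mem_univ _))
  have hos : (Iio o).Subsingleton := fun x hx _ _ => absurd (ho x) (not_le.2 hx)
  let v : κ.ord.ToType → κ.ord.ToType := fun η =>
    if h : ∃ d ∈ C, η < (d : Node κ.ord.ToType).len then (h.choose : Node κ.ord.ToType).val η
    else o
  have hv : ∀ d ∈ C, ∀ η < (d : Node κ.ord.ToType).len, (d : Node κ.ord.ToType).val η = v η := by
    intro d hd η hη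
    have h : ∃ d ∈ C, η < (d : Node κ.ord.ToType).len := ⟨d, hd, hη⟩
    simp only [v]
    rw [dif_pos h]
    obtain ⟨h1, h2⟩ := h.choose_spec
    rcases hch.total hd h1 with h3 | h3
    · exact h3.2 η hη
    · exact (h3.2 η h2).symm
  let s : Node κ.ord.ToType :=
    { len := l
      val := v
      supp := by
        intro η hη ξ
        have h : ¬ ∃ d ∈ C, η < (d : Node κ.ord.ToType).len := by
          rintro ⟨d, hd, hlt⟩
          exact absurd (hlt.trans_le (hl ⟨d, hd⟩)) (not_lt.2 hη)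
        simp only [v]
        rw [dif_neg h]
        exact ho ξ }
  have hs : s ∈ Bin κ.ord.ToType := by
    intro η
    show (Iio (v η)).Subsingleton
    by_cases h : ∃ d ∈ C, η < (d : Node κ.ord.ToType).len
    · obtain ⟨d, hd, hdη⟩ := h
      rw [← hv d hd η hdη]
      exact d.2 η
    · simp only [v]
      rw [dif_neg h]
      exact hos
  exact ⟨⟨s, hs⟩, fun d hd => ⟨hl ⟨d, hd⟩, fun η hη => hv d hd η hη⟩⟩

/-- a measurable cardinal is a strong limit cardinal -/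
theorem two_pow_lt (D : Ultrafilter κ.ord.ToType)
    (hD : CardinalInterFilter (D : Filter κ.ord.ToType) κ) (hDt : ∀ a, Ioi a ∈ D)
    (l : κ.ord.ToType) : #(Iio l → Bool) < κ := by
  by_contra hcon
  rw [not_lt] at hcon
  have h0 : #κ.ord.ToType ≤ #(Iio l → Bool) := by rwa [Cardinal.mk_ord_toType]
  obtain ⟨f⟩ := h0
  have hl : #(Iio l) < κ := Cardinal.mk_Iio_toType_ord_lt l
  have hv : ∀ b : Iio l, ∃ i : Bool, {ζ | f ζ b = i} ∈ D := by
    intro b
    by_cases h : {ζ | f ζ b = true} ∈ D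
    · exact ⟨true, h⟩
    · refine ⟨false, Filter.mem_of_superset (Ultrafilter.compl_mem_iff_notMem.2 h) ?_⟩
      intro ζ hζ
      simpa using hζ
  choose v hv using hv
  have h1 : (⋂ b : Iio l, {ζ | f ζ b = v b}) ∈ (D : Filter κ.ord.ToType) :=
    (Filter.cardinal_iInter_mem hl).2 hv
  obtain ⟨ζ, hζ⟩ := D.nonempty_of_mem h1
  obtain ⟨ζ', hζ', hlt⟩ := D.nonempty_of_mem (Filter.inter_mem h1 (hDt ζ))
  have h2 : f ζ = f ζ' := by
    funext b
    have e1 : f ζ b = v b := mem_iInter.1 hζ b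
    have e2 : f ζ' b = v b := mem_iInter.1 hζ' b
    rw [e1, e2]
  exact absurd (f.injective h2) (ne_of_lt hlt)

theorem card_bin (hκ : κ.IsRegular) (D : Ultrafilter κ.ord.ToType)
    (hD : CardinalInterFilter (D : Filter κ.ord.ToType) κ) (hDt : ∀ a, Ioi a ∈ D) :
    #(Bin κ.ord.ToType) ≤ κ := by
  classical
  have h1 : #(Bin κ.ord.ToType) ≤ #(Σ l : κ.ord.ToType, (Iio l → Bool)) := by
    refine Cardinal.mk_le_of_injective (f := fun t : Bin κ.ord.ToType =>
      (⟨(t : Node κ.ord.ToType).len,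
        fun η => decide (IsMin ((t : Node κ.ord.ToType).val η))⟩ :
          Σ l : κ.ord.ToType, (Iio l → Bool))) ?_
    rintro ⟨⟨l, v, hv⟩, ht⟩ ⟨⟨l', v', hv'⟩, ht'⟩ h
    simp only [Sigma.mk.injEq] at h
    obtain ⟨h1, h2⟩ := h
    subst h1
    rw [heq_eq_eq] at h2
    apply Subtype.ext
    refine Node.eq_of rfl fun η hη => ?_
    have h3 := congrFun h2 ⟨η, hη⟩
    simp only [decide_eq_decide] at h3
    have h4 : (Iio (v η)).Subsingleton := ht η
    have h5 : (Iio (v' η)).Subsingleton := ht' η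
    show v η = v' η
    by_cases hm : IsMin (v η)
    · have hm' := h3.1 hm
      rcases le_total (v η) (v' η) with h | h
      · exact le_antisymm h (hm' h)
      · exact le_antisymm (hm h) h
    · have hm' : ¬ IsMin (v' η) := fun h => hm (h3.2 h)
      rcases lt_trichotomy (v η) (v' η) with h | h | h
      · rw [not_isMin_iff] at hm
        obtain ⟨w, hw⟩ := hm
        exact absurd (h5 (show w ∈ Iio (v' η) from hw.trans h) h) hw.ne
      · exact h
      · rw [not_isMin_iff] at hm'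
        obtain ⟨w, hw⟩ := hm'
        exact absurd (h4 (show w ∈ Iio (v η) from hw.trans h) h) hw.ne
  refine h1.trans ?_
  rw [Cardinal.mk_sigma]
  refine (Cardinal.sum_le_sum _ (fun _ => κ) (fun l => (two_pow_lt D hD hDt l).le)).trans ?_
  rw [Cardinal.sum_const]
  simp only [Cardinal.lift_id, Cardinal.mk_ord_toType]
  exact (Cardinal.mul_eq_self hκ.aleph0_le).le

theorem map_genFil {P Q : Type} [Preorder P] [Preorder Q] {E : P → Filter P}
    (hE : IsGenFil κ Ici E) {π : P → Q} (hπ : Monotone π) :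
    IsGenFil κ (fun p => Ici (π p)) (fun p => Filter.map π (E p)) where
  ne p := by
    have := hE.ne p
    exact Filter.map_neBot
  complete p := by
    have := hE.complete p
    infer_instance
  mono p p' h := Filter.map_mono (hE.mono p p' h)
  cone_mem p := Filter.mem_map.2 (Filter.mem_of_superset (hE.cone_mem p) (fun _ hx => hπ hx))

theorem map_decides {P Q : Type} [Preorder P] {E : P → Filter P} {π : P → Q} {C : Set Q}
    (h : Decides E (π ⁻¹' C)) : Decides (fun p => Filter.map π (E p)) C := by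
  intro p
  obtain ⟨p', h1, h2⟩ := h p
  exact ⟨p', h1, h2⟩

/-- **Boxes on levels** of two regular trees, from filters on the full binary tree that decide
`κ` sets. -/
theorem exists_boxes_level_of_bin (hκ : κ.IsRegular)
    {T₀ T₁ : Set (Node κ.ord.ToType)}
    (h₀ : IsRegularTree T₀) (h₁ : IsRegularTree T₁) (D : Ultrafilter κ.ord.ToType)
    (hD : CardinalInterFilter (D : Filter κ.ord.ToType) κ) (hDt : ∀ a, Ioi a ∈ D)
    (hE : GenCompact κ (Bin κ.ord.ToType)) {ι : Type} (hι : #ι < κ) (c : T₀ → T₁ → ι)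
    (a₀ : T₀) (a₁ : T₁) :
    ∃ s, a₀ ≤ s ∧ ∃ t, a₁ ≤ t ∧ ∃ i : ι, ∀ (M J : Type), #M < κ → #J < κ →
      ∀ (p : M → T₀) (q : J → T₁), (∀ m, s ≤ p m) → (∀ j, t ≤ q j) →
        {ζ | ∃ (x : M → T₀) (y : J → T₁),
          (∀ m, p m ≤ x m ∧ (x m : Node κ.ord.ToType).len = ζ) ∧
          (∀ j, q j ≤ y j ∧ (y j : Node κ.ord.ToType).len = ζ) ∧
          ∀ m j, c (x m) (y j) = i} ∈ D := by
  classical
  have hb₀ : ∀ (s : T₀) (ζ : κ.ord.ToType), ∃ r : T₀, (s : Node κ.ord.ToType).len ≤ ζ →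
      s ≤ r ∧ (r : Node κ.ord.ToType).len = ζ := by
    intro s ζ
    by_cases h : (s : Node κ.ord.ToType).len ≤ ζ
    · obtain ⟨r, hr⟩ := exists_level h₀ s ζ h
      exact ⟨r, fun _ => hr⟩
    · exact ⟨s, fun h' => absurd h' h⟩
  have hb₁ : ∀ (s : T₁) (ζ : κ.ord.ToType), ∃ r : T₁, (s : Node κ.ord.ToType).len ≤ ζ →
      s ≤ r ∧ (r : Node κ.ord.ToType).len = ζ := by
    intro s ζ
    by_cases h : (s : Node κ.ord.ToType).len ≤ ζ
    · obtain ⟨r, hr⟩ := exists_level h₁ s ζ h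
      exact ⟨r, fun _ => hr⟩
    · exact ⟨s, fun h' => absurd h' h⟩
  choose b₀ hb₀ using hb₀
  choose b₁ hb₁ using hb₁
  have hlim : ∀ (s : T₀) (t : T₁), ∃ i : ι, {ζ | c (b₀ s ζ) (b₁ t ζ) = i} ∈ D := by
    intro s t
    by_contra hcon
    push Not at hcon
    have h1 : (⋂ i : ι, {ζ | c (b₀ s ζ) (b₁ t ζ) = i}ᶜ) ∈ (D : Filter κ.ord.ToType) :=
      (Filter.cardinal_iInter_mem hι).2
        (fun i => Ultrafilter.compl_mem_iff_notMem.2 (hcon i))
    obtain ⟨ζ, hζ⟩ := D.nonempty_of_mem h1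
    exact mem_iInter.1 hζ (c (b₀ s ζ) (b₁ t ζ)) rfl
  choose c' hc' using hlim
  obtain ⟨π₀, hm₀, hp₀, hs₀⟩ := exists_proj hκ h₀
  obtain ⟨π₁, hm₁, hp₁, hs₁⟩ := exists_proj hκ h₁
  obtain ⟨a₀', ha₀'⟩ := hs₀ a₀
  obtain ⟨a₁', ha₁'⟩ := hs₁ a₁
  have : Nonempty (Bin κ.ord.ToType) := ⟨a₀'⟩
  have hT₀ : #T₀ = κ := by rw [h₀.card, Cardinal.mk_ord_toType]
  have hB : #(Bin κ.ord.ToType) ≤ κ := card_bin hκ D hD hDt
  have hmul : ∀ {A B : Type}, #A ≤ κ → #B ≤ κ → #(A × B) ≤ κ := by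
    intro A B hA hB
    rw [Cardinal.mk_prod]
    simp only [Cardinal.lift_id]
    exact (mul_le_mul' hA hB).trans (Cardinal.mul_eq_self hκ.aleph0_le).le
  obtain ⟨E₁, hF₁, hd₁⟩ := hE.exists_of_le (I := T₀ × ι) (hmul hT₀.le hι.le)
    (fun z => π₁ ⁻¹' {y | c' z.1 y = z.2})
  obtain ⟨E₀, hF₀, hd₀⟩ := hE.exists_of_le (I := ι × Bin κ.ord.ToType) (hmul hι.le hB)
    (fun z => π₀ ⁻¹' possible (fun p => Filter.map π₁ (E₁ p)) c' z.1 z.2)
  obtain ⟨s, hs, t, ht, i, hi⟩ := exists_boxes_of_decides hκ.aleph0_le (closed_bin hκ)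
    (closed_bin hκ) (cone₀ := fun p => Ici (π₀ p)) (cone₁ := fun p => Ici (π₁ p))
    (fun p p' h => Ici_subset_Ici.2 (hm₀ h)) (fun p p' h => Ici_subset_Ici.2 (hm₁ h))
    (map_genFil hF₀ hm₀) (map_genFil hF₁ hm₁) hι c'
    (fun x i => map_decides (hd₁ (x, i))) (fun i t => map_decides (hd₀ (i, t))) a₀' a₁'
  refine ⟨π₀ s, ha₀'.trans (hm₀ hs), π₁ t, ha₁'.trans (hm₁ ht), i,
    fun M J hM hJ p q hp hq => ?_⟩
  choose p' hp1 hp2 using fun m => hp₀ s (p m) (hp m)
  choose q' hq1 hq2 using fun j => hp₁ t (q j) (hq j)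
  obtain ⟨x, y, hx, hy, hxy⟩ := hi M J hM hJ p' q' hp1 hq1
  obtain ⟨l, hl⟩ := exists_bound hκ hM (fun m => (x m : Node κ.ord.ToType).len)
  obtain ⟨l', hl'⟩ := exists_bound hκ hJ (fun j => (y j : Node κ.ord.ToType).len)
  have hMJ : #(M × J) < κ := by
    rw [Cardinal.mk_prod]
    simp only [Cardinal.lift_id]
    exact Cardinal.mul_lt_of_lt hκ.aleph0_le hM hJ
  have h1 : (⋂ z : M × J, {ζ | c (b₀ (x z.1) ζ) (b₁ (y z.2) ζ) = i}) ∈
      (D : Filter κ.ord.ToType) := by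
    refine (Filter.cardinal_iInter_mem hMJ).2 fun z => ?_
    have := hc' (x z.1) (y z.2)
    rwa [hxy z.1 z.2] at this
  refine Filter.mem_of_superset (Filter.inter_mem h1 (Filter.inter_mem (hDt l) (hDt l'))) ?_
  rintro ζ ⟨hζ, hζl, hζl'⟩
  refine ⟨fun m => b₀ (x m) ζ, fun j => b₁ (y j) ζ, fun m => ?_, fun j => ?_, fun m j => ?_⟩
  · have := hb₀ (x m) ζ ((hl m).trans (le_of_lt hζl))
    exact ⟨((hp2 m).trans (hx m)).trans this.1, this.2⟩
  · have := hb₁ (y j) ζ ((hl' j).trans (le_of_lt hζl'))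
    exact ⟨((hq2 j).trans (hy j)).trans this.1, this.2⟩
  · exact mem_iInter.1 hζ (m, j)

end Helper32.HL
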